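import Pool.Agent.Run7.h547.KM.Iface

/-! Project KM (helper547), piece VAL: evaluation of the recursion of Kashuba and Mathieu. -/

set_option autoImplicit false

namespace Pool.Agent.Run7.h531.KM

open Pool.Agent.Run7.h547.KM

/-- the values of `a` -/
def tA : List ℕ :=
  [0, 3, 6, 18, 45, 135, 378, 1134, 3324, 9981, 29733, 89280, 267273, 801957, 2403018, 7203942,
  21582282, 64661358, 193681917]

/-- the values of `b` -/
def tB : List ℕ :=
  [0, 0, 3, 8, 33, 96, 313, 936, 2904, 8752, 26730, 80769, 244888, 739290, 2232477, 6726735,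
  20258463, 60937386, 183206543]

/-- the values of `cf m w`, `w = 0, ..., m` -/
def tC : List (List ℤ) := [
    [1],
    [-3, -3],
    [3, 3, 3],
    [9, 9, 9, -1],
    [0, 0, 0, -15, 0],
    [-21, -21, -21, -39, 6, 0],
    [-63, -63, -63, -92, 45, 0, 0],
    [-57, -57, -57, -93, 204, -15, 0, 0],
    [-45, -45, -45, -93, 609, -123, 0, 0, 0],
    [117, 117, 117, 103, 1629, -684, 20, 0, 0, 0],
    [528, 528, 528, 666, 3978, -2703, 255, 0, 0, 0, 0],
    [1467, 1467, 1467, 2241, 9075, -9543, 1626, -15, 0, 0, 0, 0],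
    [3501, 3501, 3501, 6271, 19728, -30213, 8179, -333, 0, 0, 0, 0, 0],
    [8433, 8433, 8433, 17232, 40629, -90744, 34458, -2784, 6, 0, 0, 0, 0, 0],
    [19749, 19749, 19749, 45135, 76071, -259713, 131604, -17001, 255, 0, 0, 0, 0, 0, 0],
    [46746, 46746, 46746, 115146, 117315, -720495, 466072, -85401, 3204, -1, 0, 0, 0, 0, 0, 0],
    [107715, 107715, 107715, 279372, 85401, -1936518, 1568592, -380241, 24402, -105, 0, 0, 0, 0,
    0, 0, 0],
    [234948, 234948, 234948, 630354, -370128, -5058882, 5068980, -1550001, 147813, -2289, 0, 0,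
    0, 0, 0, 0, 0, 0],
    [450513, 450513, 450513, 1252666, -2526858, -12788568, 15873907, -5933799, 765711, -23664,
    18, 0, 0, 0, 0, 0, 0, 0, 0]]

/-- value of `a` -/
def A (n : ℕ) : ℤ := Int.ofNat (tA.getD n 0)
/-- value of `b` -/
def B (n : ℕ) : ℤ := Int.ofNat (tB.getD n 0)
/-- value of `cf` -/
def T (m : ℕ) (w : ℤ) : ℤ := (tC.getD m []).getD w.natAbs 0
/-- delta -/
def e (w : ℤ) : ℤ := if w = 0 then 1 else 0

/-- the sum without the last term -/
def GT (k : ℕ) (w : ℤ) : ℤ :=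
  ∑ n ∈ Finset.Icc 1 k, ∑ d ∈ Finset.Icc 1 ((k + 1) / n), (n : ℤ) *
    (A n * (T (k + 1 - n * d) (w - d) + T (k + 1 - n * d) (w + d)) +
      (A n + B n) * T (k + 1 - n * d) w)

theorem chkL : ∀ j < 19, (tC.getD j []).length = j + 1 := by decide +kernel

theorem chkA : ∀ k < 18, ((k + 1 : ℕ) : ℤ) * A (k + 1) =
    -GT k 1 + GT k 2 - ((k + 1 : ℕ) : ℤ) * (if k + 1 = 1 then -3 else 0) := by decide +kernel

theorem chkB : ∀ k < 18, ((k + 1 : ℕ) : ℤ) * B (k + 1) = GT k 1 - GT k 0 := by decide +kernel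

theorem chkT : ∀ k : ℕ, k < 18 → ∀ i : ℕ, i < 2 * k + 3 →
    ((k + 1 : ℕ) : ℤ) * T (k + 1) ((i : ℤ) - ((k + 1 : ℕ) : ℤ)) =
    -(GT k ((i : ℤ) - ((k + 1 : ℕ) : ℤ)) + ((k + 1 : ℕ) : ℤ) *
      (A (k + 1) * (e ((i : ℤ) - ((k + 1 : ℕ) : ℤ) - 1) + e ((i : ℤ) - ((k + 1 : ℕ) : ℤ) + 1)) +
        (A (k + 1) + B (k + 1)) * e ((i : ℤ) - ((k + 1 : ℕ) : ℤ)))) := by decide +kernel

theorem T_supp (j : ℕ) (hj : j < 19) (w : ℤ) (h : j < w.natAbs) : T j w = 0 := by
  unfold T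
  apply List.getD_eq_default
  rw [chkL j hj]
  omega

theorem GT_supp (k : ℕ) (hk : k < 18) (w : ℤ) (h : k + 1 < w.natAbs) : GT k w = 0 := by
  unfold GT
  apply Finset.sum_eq_zero
  intro n hn
  apply Finset.sum_eq_zero
  intro d hd
  rw [Finset.mem_Icc] at hn hd
  have h1 : n * d ≤ k + 1 := by
    calc n * d ≤ n * ((k + 1) / n) := Nat.mul_le_mul_left _ hd.2
      _ ≤ k + 1 := Nat.mul_div_le _ _
  have h2 : d ≤ n * d := Nat.le_mul_of_pos_left _ (by omega)
  set p := n * d with hp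
  rw [T_supp (k + 1 - p) (by omega) (w - d) (by omega),
    T_supp (k + 1 - p) (by omega) (w + d) (by omega),
    T_supp (k + 1 - p) (by omega) w (by omega)]
  ring

theorem step (a b : ℕ → ℕ) (h0 : ∀ w, cf a b 0 w = if w = 0 then 1 else 0)
    (hrec : ∀ m : ℕ, 1 ≤ m → ∀ w : ℤ, (m : ℤ) * cf a b m w =
      - ∑ n ∈ Finset.Icc 1 m, ∑ d ∈ Finset.Icc 1 (m / n), (n : ℤ) *
      (a n * (cf a b (m - n * d) (w - d) + cf a b (m - n * d) (w + d)) +
        (a n + b n) * cf a b (m - n * d) w))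
    (hkm : IsKM a b) (k : ℕ) (hk : k < 18)
    (ih : ∀ j ≤ k, (∀ w, cf a b j w = T j w) ∧ (1 ≤ j → (a j : ℤ) = A j ∧ (b j : ℤ) = B j)) :
    (∀ w, cf a b (k + 1) w = T (k + 1) w) ∧ ((a (k + 1) : ℤ) = A (k + 1) ∧
      (b (k + 1) : ℤ) = B (k + 1)) := by
  have hR : ∀ w, ((k + 1 : ℕ) : ℤ) * cf a b (k + 1) w =
      -(GT k w + ((k + 1 : ℕ) : ℤ) * (a (k + 1) * (e (w - 1) + e (w + 1)) +
        (a (k + 1) + b (k + 1)) * e w)) := by
    intro w
    rw [hrec (k + 1) (by omega) w, Finset.sum_Icc_succ_top (by omega)]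
    have e1 : ∑ n ∈ Finset.Icc 1 k, ∑ d ∈ Finset.Icc 1 ((k + 1) / n), (n : ℤ) *
        (a n * (cf a b (k + 1 - n * d) (w - d) + cf a b (k + 1 - n * d) (w + d)) +
        (a n + b n) * cf a b (k + 1 - n * d) w) = GT k w := by
      unfold GT
      apply Finset.sum_congr rfl
      intro n hn
      apply Finset.sum_congr rfl
      intro d hd
      rw [Finset.mem_Icc] at hn hd
      have h2 : 1 ≤ n * d := Nat.mul_pos (by omega) (by omega)
      have hj : k + 1 - n * d ≤ k := by omega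
      obtain ⟨ha, hb⟩ := (ih n hn.2).2 hn.1
      rw [ha, hb, (ih _ hj).1, (ih _ hj).1, (ih _ hj).1]
    have e2 : ∑ d ∈ Finset.Icc 1 ((k + 1) / (k + 1)), ((k + 1 : ℕ) : ℤ) *
        (a (k + 1) * (cf a b (k + 1 - (k + 1) * d) (w - d) +
        cf a b (k + 1 - (k + 1) * d) (w + d)) +
        (a (k + 1) + b (k + 1)) * cf a b (k + 1 - (k + 1) * d) w) =
        ((k + 1 : ℕ) : ℤ) * (a (k + 1) * (e (w - 1) + e (w + 1)) +
        (a (k + 1) + b (k + 1)) * e w) := by
      rw [Nat.div_self (Nat.succ_pos k), Finset.Icc_self, Finset.sum_singleton, mul_one,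
        Nat.sub_self, h0, h0, h0]
      simp only [e, Nat.cast_one]
    rw [e1, e2]
  have hkne : ((k + 1 : ℕ) : ℤ) ≠ 0 := by
    exact_mod_cast Nat.succ_ne_zero k
  obtain ⟨q1, q2⟩ := hkm (k + 1)
  have q1' : cf a b (k + 1) 0 - cf a b (k + 1) 1 = 0 := by
    rw [if_neg (Nat.succ_ne_zero k)] at q1
    exact q1
  have q2' : cf a b (k + 1) 1 - cf a b (k + 1) 2 = if k + 1 = 1 then -3 else 0 := q2
  have r0 := hR 0
  have r1 := hR 1
  have r2 := hR 2
  have cA := chkA k hk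
  have cB := chkB k hk
  set δ : ℤ := if k + 1 = 1 then -3 else 0 with hδ
  set K : ℤ := ((k + 1 : ℕ) : ℤ) with hK
  have v0 : e 0 = 1 := rfl
  have v1 : e 1 = 0 := rfl
  have v2 : e 2 = 0 := rfl
  have v3 : e 3 = 0 := rfl
  have vm : e (-1) = 0 := rfl
  rw [show (0 : ℤ) - 1 = -1 from rfl, show (0 : ℤ) + 1 = 1 from rfl, v0, v1, vm] at r0
  rw [show (1 : ℤ) - 1 = 0 from rfl, show (1 : ℤ) + 1 = 2 from rfl, v0, v1, v2] at r1
  rw [show (2 : ℤ) - 1 = 1 from rfl, show (2 : ℤ) + 1 = 3 from rfl, v1, v2, v3] at r2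
  have hA : (a (k + 1) : ℤ) = A (k + 1) := by
    apply mul_left_cancel₀ hkne
    have : K * (cf a b (k + 1) 1 - cf a b (k + 1) 2) = K * δ := by rw [q2']
    linarith
  have hB : (b (k + 1) : ℤ) = B (k + 1) := by
    apply mul_left_cancel₀ hkne
    have : K * (cf a b (k + 1) 0 - cf a b (k + 1) 1) = K * 0 := by rw [q1']
    linarith
  refine ⟨?_, hA, hB⟩
  intro w
  apply mul_left_cancel₀ hkne
  have hw := hR w
  by_cases hs : w.natAbs ≤ k + 1
  · have hi : ((w + ((k + 1 : ℕ) : ℤ)).toNat : ℤ) - ((k + 1 : ℕ) : ℤ) = w := by omega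
    have hc := chkT k hk (w + ((k + 1 : ℕ) : ℤ)).toNat (by omega)
    rw [hi] at hc
    rw [hw, hc, hA, hB]
  · rw [not_le] at hs
    rw [hw, GT_supp k hk w hs, T_supp (k + 1) (by omega) w hs]
    have u1 : e (w - 1) = 0 := by
      unfold e
      rw [if_neg]
      omega
    have u2 : e (w + 1) = 0 := by
      unfold e
      rw [if_neg]
      omega
    have u3 : e w = 0 := by
      unfold e
      rw [if_neg]
      omega
    rw [u1, u2, u3]
    ring

theorem t_VAL : S_VAL := by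
  intro hREC a b hkm
  obtain ⟨h0, hrec⟩ := hREC a b
  have main : ∀ k ≤ 18, ∀ j ≤ k, (∀ w, cf a b j w = T j w) ∧
      (1 ≤ j → (a j : ℤ) = A j ∧ (b j : ℤ) = B j) := by
    intro k
    induction k with
    | zero =>
      intro _ j hj
      obtain rfl : j = 0 := by omega
      refine ⟨fun w => ?_, fun h => absurd h (by omega)⟩
      rw [h0]
      by_cases hw : w = 0
      · subst hw
        rfl
      · rw [if_neg hw, T_supp 0 (by omega) w (by omega)]
    | succ k ih =>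
      intro hk j hj
      have ih' := ih (by omega)
      rcases Nat.lt_or_ge j (k + 1) with h | h
      · exact ih' j (by omega)
      · obtain rfl : j = k + 1 := by omega
        obtain ⟨s1, s2⟩ := step a b h0 hrec hkm k (by omega) ih'
        exact ⟨s1, fun _ => s2⟩
  have h := ((main 18 le_rfl 18 le_rfl).2 (by omega)).1
  have h18 : A 18 = 193681917 := rfl
  rw [h18] at h
  exact_mod_cast h

end Pool.Agent.Run7.h531.KM
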